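import Pool.Agent.Helper45.LGB.St2

/-!
# Project LGB (MP_97dcad_al), module BIL: the commutator is bilinear modulo the next term
-/

set_option autoImplicit false

namespace Pool.Agent.Helper80.LGB

open Pool.Agent.Helper45.LGB Pool.Agent.Helper83.RB
open scoped commutatorElement

private theorem id3 {G : Type} [Group G] (a b g : G) :
    ⁅a * b, g⁆ * (⁅a, g⁆ * ⁅b, g⁆)⁻¹ = ⁅a, ⁅b, g⁆⁆ * ⁅⁅b, g⁆, ⁅a, g⁆⁆ := by
  simp only [commutatorElement_def]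
  group

private theorem id4 {G : Type} [Group G] (a g h : G) :
    ⁅a, g * h⁆ * (⁅a, g⁆ * ⁅a, h⁆)⁻¹ = ⁅a, g⁆ * ⁅g, ⁅a, h⁆⁆ * ⁅a, g⁆⁻¹ := by
  simp only [commutatorElement_def]
  group

private theorem ja {G : Type} [Group G] (a x y : G) :
    ⁅a, x * y⁆ = ⁅a, x⁆ * ⁅⁅a, y⁆, x⁆⁻¹ * ⁅a, y⁆ := by
  simp only [commutatorElement_def]
  group

private theorem id5 {G : Type} [Group G] (a g h : G) :
    ⁅a, h⁆ * ⁅⁅a, g⁆, h⁆⁻¹ * ⁅a, g⁆ =
      ⁅a, ⁅h, g⁆⁆ * ⁅⁅a, g * h⁆, ⁅h, g⁆⁆⁻¹ * (⁅a, g⁆ * ⁅⁅a, h⁆, g⁆⁻¹ * ⁅a, h⁆) := by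
  rw [← ja a h g, ← ja a g h, ← ja a ⁅h, g⁆ (g * h)]
  congr 1
  rw [commutatorElement_def]
  group

private theorem fin5 {K : Type} [Group K] (p q s t c : K) (hpq : p * q = q * p) (hs : s * p = p * s)
    (ht : t * q = q * t) (hc : ∀ x, c * x = x * c)
    (h : q * s⁻¹ * p = c * 1⁻¹ * (p * t⁻¹ * q)) : t = c * s := by
  have e1 : s⁻¹ * p = p * s⁻¹ := by
    rw [inv_mul_eq_iff_eq_mul, ← mul_assoc, hs, mul_inv_cancel_right]
  have e2 : t⁻¹ * q = q * t⁻¹ := by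
    rw [inv_mul_eq_iff_eq_mul, ← mul_assoc, ht, mul_inv_cancel_right]
  rw [mul_assoc, e1, ← mul_assoc, ← hpq, inv_one, mul_one, mul_assoc p q, mul_assoc p t⁻¹, e2, hc,
    mul_assoc p, mul_assoc q] at h
  have h1 : s⁻¹ = t⁻¹ * c := mul_left_cancel (mul_left_cancel h)
  rw [inv_eq_iff_eq_inv, mul_inv_rev, inv_inv] at h1
  rw [h1, mul_inv_cancel_left]

theorem hBIL (hLCC : StLCC) : StBIL := by
  intro G _
  have c1 : ∀ k w : ℕ, ∀ a ∈ (⊤ : Subgroup G).lowerCentralSeries k,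
      ∀ g ∈ (⊤ : Subgroup G).lowerCentralSeries w,
      ⁅a, g⁆ ∈ (⊤ : Subgroup G).lowerCentralSeries (k + w + 1) := fun k w a ha g hg =>
    hLCC G k w (Subgroup.commutator_mem_commutator ha hg)
  have mono : ∀ {m n : ℕ}, m ≤ n → ∀ {x : G}, x ∈ (⊤ : Subgroup G).lowerCentralSeries n →
      x ∈ (⊤ : Subgroup G).lowerCentralSeries m := fun h _ hx =>
    (⊤ : Subgroup G).lowerCentralSeries_antitone h hx
  refine ⟨c1, fun k a ha => mono (Nat.le_succ k) ha, ?_, ?_, ?_⟩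
  · intro k w a ha b hb g hg
    rw [id3]
    refine mul_mem ?_ ?_
    · exact mono (by omega) (c1 k (k + w + 1) a ha _ (c1 k w b hb g hg))
    · exact mono (by omega) (c1 (k + w + 1) (k + w + 1) _ (c1 k w b hb g hg) _ (c1 k w a ha g hg))
  · intro k w a ha g hg h hh
    rw [id4]
    refine Subgroup.Normal.conj_mem inferInstance _ ?_ _
    exact mono (by omega) (c1 w (k + w + 1) g hg _ (c1 k w a ha h hh))
  · intro k w w' a ha g hg h hh
    set N := (⊤ : Subgroup G).lowerCentralSeries (k + w + w' + 3) with hN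
    have one : ∀ x : G, x ∈ N → (QuotientGroup.mk' N) x = 1 := fun x hx =>
      (QuotientGroup.eq_one_iff x).2 hx
    have comm : ∀ x y : G, ⁅x, y⁆ ∈ N →
        (QuotientGroup.mk' N) x * (QuotientGroup.mk' N) y =
          (QuotientGroup.mk' N) y * (QuotientGroup.mk' N) x := by
      intro x y hxy
      have h1 := one _ hxy
      rw [map_commutatorElement, commutatorElement_eq_one_iff_mul_comm] at h1
      exact h1
    have cent : ∀ t : G, t ∈ (⊤ : Subgroup G).lowerCentralSeries (k + w + w' + 2) → ∀ x : G,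
        (QuotientGroup.mk' N) t * (QuotientGroup.mk' N) x =
          (QuotientGroup.mk' N) x * (QuotientGroup.mk' N) t := fun t ht x =>
      comm t x (c1 (k + w + w' + 2) 0 t ht x (Subgroup.mem_top x))
    have hP := c1 k w a ha g hg
    have hQ := c1 k w' a ha h hh
    have hc := c1 w' w h hh g hg
    have hT : ⁅⁅a, g⁆, h⁆ ∈ (⊤ : Subgroup G).lowerCentralSeries (k + w + w' + 2) :=
      mono (by omega) (c1 _ _ _ hP h hh)
    have hT' : ⁅⁅a, h⁆, g⁆ ∈ (⊤ : Subgroup G).lowerCentralSeries (k + w + w' + 2) :=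
      mono (by omega) (c1 _ _ _ hQ g hg)
    have hc1 : ⁅a, ⁅h, g⁆⁆ ∈ (⊤ : Subgroup G).lowerCentralSeries (k + w + w' + 2) :=
      mono (by omega) (c1 _ _ a ha _ hc)
    have hE : ⁅⁅a, g * h⁆, ⁅h, g⁆⁆ ∈ N :=
      mono (by omega) (c1 _ _ _ (c1 k 0 a ha (g * h) (Subgroup.mem_top _)) _ hc)
    have hPQ : ⁅⁅a, g⁆, ⁅a, h⁆⁆ ∈ N := mono (by omega) (c1 _ _ _ hP _ hQ)
    have key := congrArg (QuotientGroup.mk' N) (id5 a g h)
    simp only [map_mul, map_inv] at key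
    rw [one _ hE] at key
    have h5 := fin5 _ _ _ _ _ (comm _ _ hPQ) (cent _ hT _) (cent _ hT' _)
      (fun x => by
        obtain ⟨y, rfl⟩ := QuotientGroup.mk'_surjective N x
        exact cent _ hc1 y) key
    rw [← map_mul] at h5
    have h6 := (QuotientGroup.eq (s := N)).1 h5
    have h7 : ⁅⁅a, h⁆, g⁆ * (⁅a, ⁅h, g⁆⁆ * ⁅⁅a, g⁆, h⁆)⁻¹ =
        ⁅⁅a, h⁆, g⁆ * (⁅⁅a, h⁆, g⁆⁻¹ * (⁅a, ⁅h, g⁆⁆ * ⁅⁅a, g⁆, h⁆))⁻¹ * ⁅⁅a, h⁆, g⁆⁻¹ := by
      group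
    rw [h7]
    exact Subgroup.Normal.conj_mem inferInstance _ (inv_mem h6) _

end Pool.Agent.Helper80.LGB
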